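import Pool.Agent.Helper64.MEE.Done

set_option autoImplicit false

/-!
# A polynomial time many-one reduction from `B₂` to minimum equivalent expression

The reduction follows the plan of Buchfuhrer and Umans (weighted variables, weights replaced by
many copies of a variable), but the choice of the gadget makes a single query enough: the number
of literal occurrences of a minimum equivalent expression is known up to the size of a small set
of light variables which encodes the assignment of the existential variables.

The function is computed by an explicit program for a multi-stack machine, whose running time is
bounded by an explicit polynomial.
-/

namespace Pool.Agent.Results.MP_491c4a_lc.ManyOneHard

open Pool.Agent.Helper64.MEE

/-- The problem `B₂` of quantified Boolean expressions (one existential block followed by one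
universal block) has a polynomial time many-one reduction to the minimum equivalent expression
problem, and the encodings of the instances of both problems as words are injective. -/
theorem result : Function.Injective encB2 ∧ Function.Injective encMEE ∧
    ManyOnePoly encB2 encMEE B2 MEE :=
  main

end Pool.Agent.Results.MP_491c4a_lc.ManyOneHard
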